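import Mathlib

/-!
# The quotients `G_{k,n}(q)`

`G k n` is the power series `(q^(2k-1); q^2)_n / (q; q^2)_(n+1)` over the integers. Tools to show that
`G k n - G (k+1) (n-1)` has nonnegative coefficients.
-/

set_option autoImplicit false

open PowerSeries Finset

namespace Pool.Agent.Helper716_Gkn

/-- The denominator `(q; q^2)_(n+1) = (1 - q)(1 - q^3) ... (1 - q^(2n+1))`. -/
noncomputable def den (n : ℕ) : ℤ⟦X⟧ := ∏ j ∈ range (n + 1), (1 - X ^ (2 * j + 1))

/-- The numerator `(q^(2k-1); q^2)_n = (1 - q^(2k-1))(1 - q^(2k+1)) ... (1 - q^(2k+2n-3))`. -/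
noncomputable def num (k n : ℕ) : ℤ⟦X⟧ := ∏ j ∈ range n, (1 - X ^ (2 * k - 1 + 2 * j))

/-- `G_{k,n}(q) = (q^(2k-1); q^2)_n / (q; q^2)_(n+1)` as a power series over the integers. -/
noncomputable def G (k n : ℕ) : ℤ⟦X⟧ := num k n * invOfUnit (den n) 1

/-- All coefficients are nonnegative. -/
def Nonneg (A : ℤ⟦X⟧) : Prop := ∀ m, 0 ≤ coeff m A

theorem constantCoeff_den (n : ℕ) : constantCoeff (den n) = 1 := by
  unfold den
  rw [map_prod]
  apply Finset.prod_eq_one
  intro j _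
  simp

theorem den_ne_zero (n : ℕ) : den n ≠ 0 := by
  intro h
  have := constantCoeff_den n
  rw [h] at this
  simp at this

theorem G_mul_den (k n : ℕ) : G k n * den n = num k n := by
  unfold G
  rw [mul_assoc, mul_comm (invOfUnit _ _) (den n), mul_invOfUnit, mul_one]
  rw [constantCoeff_den]; rfl

theorem Nonneg.add {A B : ℤ⟦X⟧} (hA : Nonneg A) (hB : Nonneg B) : Nonneg (A + B) := by
  intro m
  rw [map_add]
  exact add_nonneg (hA m) (hB m)

theorem Nonneg.mul {A B : ℤ⟦X⟧} (hA : Nonneg A) (hB : Nonneg B) : Nonneg (A * B) := by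
  intro m
  rw [coeff_mul]
  exact Finset.sum_nonneg fun p _ => mul_nonneg (hA _) (hB _)

theorem Nonneg.X_pow (a : ℕ) : Nonneg ((X : ℤ⟦X⟧) ^ a) := by
  intro m
  rw [coeff_X_pow]
  split_ifs <;> norm_num

theorem Nonneg.one : Nonneg (1 : ℤ⟦X⟧) := by
  simpa using Nonneg.X_pow 0

theorem Nonneg.zero : Nonneg (0 : ℤ⟦X⟧) := by
  intro m
  simp

theorem Nonneg.sum {ι : Type*} (s : Finset ι) (f : ι → ℤ⟦X⟧) (h : ∀ i ∈ s, Nonneg (f i)) :
    Nonneg (∑ i ∈ s, f i) := by
  intro m
  rw [map_sum]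
  exact Finset.sum_nonneg fun i hi => h i hi m

theorem Nonneg.prod {ι : Type*} (s : Finset ι) (f : ι → ℤ⟦X⟧) (h : ∀ i ∈ s, Nonneg (f i)) :
    Nonneg (∏ i ∈ s, f i) := by
  classical
  induction s using Finset.induction_on with
  | empty => simpa using Nonneg.one
  | insert a s ha ih =>
    rw [Finset.prod_insert ha]
    exact (h a (mem_insert_self a s)).mul (ih fun i hi => h i (mem_insert_of_mem hi))

/-- `geo a b = 1 + q^a + ... + q^(a(b-1)) = (1 - q^(ab)) / (1 - q^a)`. -/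
noncomputable def geo (a b : ℕ) : ℤ⟦X⟧ := ∑ i ∈ range b, (X ^ a) ^ i

theorem Nonneg.geo (a b : ℕ) : Nonneg (geo a b) := by
  apply Nonneg.sum
  intro i _
  rw [← pow_mul]
  exact Nonneg.X_pow _

theorem geo_mul (a b : ℕ) : geo a b * (1 - X ^ a) = 1 - X ^ (a * b) := by
  unfold Helper716_Gkn.geo
  rw [geom_sum_mul_neg, pow_mul]

/-- `I d = 1 / (1 - q^d)`. -/
noncomputable def I (d : ℕ) : ℤ⟦X⟧ := PowerSeries.mk fun m => if d ∣ m then 1 else 0

theorem Nonneg.I (d : ℕ) : Nonneg (I d) := by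
  intro m
  unfold Helper716_Gkn.I
  rw [coeff_mk]
  split_ifs <;> norm_num

theorem I_mul (d : ℕ) (hd : 0 < d) : I d * (1 - X ^ d) = 1 := by
  ext m
  rw [mul_sub, mul_one, map_sub, coeff_mul_X_pow']
  unfold I
  rw [coeff_mk, coeff_mk, coeff_one]
  by_cases hm : d ≤ m
  · rw [if_pos hm]
    have h1 : (d ∣ m - d) ↔ d ∣ m := by
      constructor
      · intro h
        have := Nat.dvd_add h (dvd_refl d)
        rwa [Nat.sub_add_cancel hm] at this
      · intro h
        exact Nat.dvd_sub h (dvd_refl d)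
    have h2 : m ≠ 0 := by omega
    simp [h1, h2]
  · rw [if_neg hm, sub_zero]
    by_cases h0 : m = 0
    · simp [h0]
    · rw [if_neg h0, if_neg]
      intro h
      exact hm (Nat.le_of_dvd (by omega) h)

theorem num_succ (k n : ℕ) (hk : 1 ≤ k) :
    num k (n + 1) = (1 - X ^ (2 * k - 1)) * num (k + 1) n := by
  unfold num
  rw [Finset.prod_range_succ', mul_comm]
  congr 1
  apply Finset.prod_congr rfl
  intro j _
  congr 2
  omega

theorem den_succ (n : ℕ) : den (n + 1) = den n * (1 - X ^ (2 * n + 3)) := by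
  unfold den
  rw [Finset.prod_range_succ _ (n + 1)]
  congr 1

/-- The difference times the denominator. -/
theorem diff_mul (n r : ℕ) :
    (G (n + 2 + r) (n + 1) - G (n + 2 + r + 1) n) * den (n + 1) =
      X ^ (2 * n + 3) * (1 - X ^ (2 * r)) * num (n + 3 + r) n := by
  rw [sub_mul, G_mul_den, den_succ, ← mul_assoc, G_mul_den, num_succ _ _ (by omega)]
  have h1 : 2 * (n + 2 + r) - 1 = (2 * n + 3) + 2 * r := by omega
  have h2 : n + 2 + r + 1 = n + 3 + r := by omega
  rw [h1, h2, pow_add]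
  ring

/-- A nonnegative series with the right product with the denominator proves nonnegativity. -/
theorem key (n r : ℕ) (E : ℤ⟦X⟧) (hE : Nonneg E)
    (h : E * den (n + 1) = (1 - X ^ (2 * r)) * num (n + 3 + r) n) :
    Nonneg (G (n + 2 + r) (n + 1) - G (n + 2 + r + 1) n) := by
  have h1 : (G (n + 2 + r) (n + 1) - G (n + 2 + r + 1) n) = X ^ (2 * n + 3) * E := by
    apply mul_right_cancel₀ (den_ne_zero (n + 1))
    rw [diff_mul, mul_assoc (X ^ (2 * n + 3)) E, h, mul_assoc]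
  rw [h1]
  exact (Nonneg.X_pow _).mul hE

end Pool.Agent.Helper716_Gkn
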