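import Pool.Agent.Helper716_Gkn.Basic

set_option autoImplicit false

open PowerSeries Finset

namespace Pool.Agent.Helper716_Gkn

theorem den_eq (n : ℕ) :
    den (n + 1) = (1 - X) * (∏ j ∈ range n, (1 - X ^ (2 * j + 3))) * (1 - X ^ (2 * n + 3)) := by
  rw [den_succ]
  congr 1
  unfold den
  rw [Finset.prod_range_succ', mul_comm]
  congr 1
  simp

/-- If each exponent `2k+1+2j` (`j < n`) of the numerator is divisible by its partner `2 * σ j + 3`, where `σ` is a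
permutation of `range n`, the difference is nonnegative. -/
theorem matched (n r : ℕ) (σ : ℕ → ℕ)
    (hσ : ∏ j ∈ range n, ((1 : ℤ⟦X⟧) - X ^ (2 * σ j + 3)) = ∏ j ∈ range n, (1 - X ^ (2 * j + 3)))
    (h : ∀ j, j < n → (2 * σ j + 3) ∣ (2 * (n + 3 + r) - 1 + 2 * j)) :
    Nonneg (G (n + 2 + r) (n + 1) - G (n + 2 + r + 1) n) := by
  apply key n r (geo 1 (2 * r) * (∏ j ∈ range n, geo (2 * σ j + 3)
    ((2 * (n + 3 + r) - 1 + 2 * j) / (2 * σ j + 3))) * I (2 * n + 3))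
    (((Nonneg.geo _ _).mul (Nonneg.prod _ _ fun j _ => Nonneg.geo _ _)).mul (Nonneg.I _))
  have h1 := geo_mul 1 (2 * r)
  rw [pow_one, one_mul] at h1
  have h2 := I_mul (2 * n + 3) (by omega)
  have h3 : (∏ j ∈ range n, geo (2 * σ j + 3) ((2 * (n + 3 + r) - 1 + 2 * j) / (2 * σ j + 3))) *
      (∏ j ∈ range n, (1 - X ^ (2 * j + 3))) = num (n + 3 + r) n := by
    rw [← hσ, ← Finset.prod_mul_distrib]
    unfold num
    apply Finset.prod_congr rfl
    intro j hj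
    rw [geo_mul, Nat.mul_div_cancel' (h j (mem_range.mp hj))]
  rw [den_eq, ← h3, ← h1]
  linear_combination (geo 1 (2 * r) * (∏ j ∈ range n, geo (2 * σ j + 3)
    ((2 * (n + 3 + r) - 1 + 2 * j) / (2 * σ j + 3))) * ((1 - X) * (∏ j ∈ range n,
    (1 - X ^ (2 * j + 3))))) * h2

theorem family (n k : ℕ) (hn : 1 ≤ n) (hk : n + 1 ≤ k)
    (h : (∀ j, j < n → (2 * j + 1) ∣ (k - 1)) ∨ (∀ j, j < n → (2 * j + 1) ∣ (k + n))) :
    Nonneg (G k n - G (k + 1) (n - 1)) := by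
  obtain ⟨n, rfl⟩ : ∃ m, n = m + 1 := ⟨n - 1, by omega⟩
  obtain ⟨r, rfl⟩ : ∃ r, k = n + 2 + r := ⟨k - (n + 2), by omega⟩
  rw [Nat.add_sub_cancel]
  rcases h with h | h
  · apply matched n r (fun j => j) rfl
    intro j hj
    have h1 := h (j + 1) (by omega)
    have h2 : 2 * (n + 3 + r) - 1 + 2 * j = (n + 2 + r - 1) * 2 + (2 * (j + 1) + 1) := by omega
    rw [h2]
    exact Nat.dvd_add (Dvd.dvd.mul_right h1 2) (dvd_refl _)
  · apply matched n r (fun j => n - 1 - j)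
    · exact Finset.prod_range_reflect (fun j => (1 : ℤ⟦X⟧) - X ^ (2 * j + 3)) n
    intro j hj
    have h1 := h (n - j) (by omega)
    have h3 : 2 * (n - 1 - j) + 3 = 2 * (n - j) + 1 := by omega
    rw [h3]
    have h2 : (2 * (n + 3 + r) - 1 + 2 * j) + (2 * (n - j) + 1) = (n + 2 + r + (n + 1)) * 2 := by
      omega
    have h4 : (2 * (n - j) + 1) ∣ (2 * (n + 3 + r) - 1 + 2 * j) + (2 * (n - j) + 1) := by
      rw [h2]
      exact Dvd.dvd.mul_right h1 2
    exact (Nat.dvd_add_left (dvd_refl _)).mp h4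

end Pool.Agent.Helper716_Gkn
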