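import Pool.Agent.Helper716_Gkn.Two
import Pool.Agent.Helper716_Gkn.ThreeData

set_option autoImplicit false

open PowerSeries Finset

namespace Pool.Agent.Helper716_Gkn

/-- The power series of a list of coefficients. -/
noncomputable def ev : List ℤ → ℤ⟦X⟧
  | [] => 0
  | a :: l => C a + X * ev l

def addL : List ℤ → List ℤ → List ℤ
  | [], b => b
  | a, [] => a
  | x :: a, y :: b => (x + y) :: addL a b

def negL : List ℤ → List ℤ
  | [] => []
  | x :: a => (-x) :: negL a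

def shiftL : ℕ → List ℤ → List ℤ
  | 0, l => l
  | e + 1, l => 0 :: shiftL e l

def mulOne (e : ℕ) (l : List ℤ) : List ℤ := addL l (shiftL e (negL l))

def mulAll : List ℕ → List ℤ → List ℤ
  | [], l => l
  | e :: es, l => mulOne e (mulAll es l)

def allZ : List ℤ → Bool
  | [] => true
  | x :: l => (x == 0) && allZ l

def dec : ℕ → ℕ → List ℤ
  | 0, _ => []
  | k + 1, n => ((n % 1024 : ℕ) : ℤ) :: dec k (n / 1024)

theorem ev_addL : ∀ a b : List ℤ, ev (addL a b) = ev a + ev b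
  | [], b => by simp [addL, ev]
  | x :: a, [] => by simp [addL, ev]
  | x :: a, y :: b => by
    simp only [addL, ev, ev_addL a b, map_add]
    ring

theorem ev_negL : ∀ a : List ℤ, ev (negL a) = - ev a
  | [] => by simp [negL, ev]
  | x :: a => by
    simp only [negL, ev, ev_negL a, map_neg]
    ring

theorem ev_shiftL : ∀ (e : ℕ) (a : List ℤ), ev (shiftL e a) = X ^ e * ev a
  | 0, a => by simp [shiftL]
  | e + 1, a => by
    simp only [shiftL, ev, ev_shiftL e a, map_zero]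
    ring

theorem ev_mulOne (e : ℕ) (a : List ℤ) : ev (mulOne e a) = (1 - X ^ e) * ev a := by
  unfold mulOne
  rw [ev_addL, ev_shiftL, ev_negL]
  ring

theorem ev_mulAll : ∀ (es : List ℕ) (a : List ℤ),
    ev (mulAll es a) = (es.map fun e => (1 : ℤ⟦X⟧) - X ^ e).prod * ev a
  | [], a => by simp [mulAll]
  | e :: es, a => by
    simp only [mulAll, ev_mulOne, ev_mulAll es a, List.map_cons, List.prod_cons]
    ring

theorem ev_allZ : ∀ a : List ℤ, allZ a = true → ev a = 0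
  | [], _ => by simp [ev]
  | x :: a, h => by
    simp only [allZ, Bool.and_eq_true, beq_iff_eq] at h
    simp [ev, h.1, ev_allZ a h.2]

theorem ev_dec : ∀ k n : ℕ, Nonneg (ev (dec k n))
  | 0, n => by simpa [dec, ev] using Nonneg.zero
  | k + 1, n => by
    simp only [dec, ev]
    apply Nonneg.add
    · intro m
      rw [coeff_C]
      split_ifs
      · exact Int.natCast_nonneg _
      · exact le_refl _
    · have := (Nonneg.X_pow 1).mul (ev_dec k (n / 1024))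
      rwa [pow_one] at this

/-- Test of a certificate. -/
def chk (nums dens : List ℕ) (p t cA cB : ℕ) : Bool :=
  allZ (addL (mulAll dens (addL (mulOne p (dec t cA)) (shiftL t (dec p cB))))
    (negL (mulAll nums (mulOne p [1]))))

theorem chk_spec (nums dens : List ℕ) (p t cA cB : ℕ) (hp : 0 < p)
    (h : chk nums dens p t cA cB = true) :
    ∃ Q : ℤ⟦X⟧, Nonneg Q ∧ Q * (dens.map fun e => (1 : ℤ⟦X⟧) - X ^ e).prod =
      (nums.map fun e => (1 : ℤ⟦X⟧) - X ^ e).prod := by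
  refine ⟨ev (dec t cA) + X ^ t * ev (dec p cB) * I p,
    (ev_dec _ _).add (((Nonneg.X_pow _).mul (ev_dec _ _)).mul (Nonneg.I _)), ?_⟩
  have h1 := ev_allZ _ h
  rw [ev_addL, ev_negL, ev_mulAll, ev_mulAll, ev_mulOne, ev_addL, ev_mulOne, ev_shiftL] at h1
  have h2 := I_mul p hp
  have h3 : (1 : ℤ⟦X⟧) - X ^ p ≠ 0 := by
    intro h0
    rw [h0, mul_zero] at h2
    exact zero_ne_one h2
  have h4 : ev [1] = 1 := by simp [ev]
  rw [h4] at h1
  apply mul_right_cancel₀ h3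
  linear_combination h1 + (X ^ t * ev (dec p cB) *
    (dens.map fun e => (1 : ℤ⟦X⟧) - X ^ e).prod) * h2

theorem chk01 : ∀ ρ ∈ List.range 15, chk [2 * ρ, 2 * ρ + 9] [1, 5, 7] 35 70 (c01A.getD ρ 0)
    (c01B.getD ρ 0) = true := by decide +kernel

theorem chk02 : ∀ ρ ∈ List.range 15, chk [2 * ρ, 2 * ρ + 11] [1, 5, 7] 35 70 (c02A.getD ρ 0)
    (c02B.getD ρ 0) = true := by decide +kernel

theorem chk12 : ∀ ρ ∈ List.range 15, chk [2 * ρ + 9, 2 * ρ + 11] [1, 5, 7] 35 70 (c12A.getD ρ 0)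
    (c12B.getD ρ 0) = true := by decide +kernel

theorem chk3 : ∀ ρ ∈ List.range 15, chk [2 * ρ, 2 * ρ + 9, 2 * ρ + 11] [1, 3, 5, 7] 105 105
    (c3A.getD ρ 0) (c3B.getD ρ 0) = true := by decide +kernel

theorem den_three : den 3 = (1 - X) * (1 - X ^ 3) * (1 - X ^ 5) * (1 - X ^ 7) := by
  unfold den
  simp [Finset.prod_range_succ]

theorem num_two (k : ℕ) : num k 2 = (1 - X ^ (2 * k - 1)) * (1 - X ^ (2 * k - 1 + 2)) := by
  unfold num
  simp [Finset.prod_range_succ]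

/-- Q1 for `n = 3` and every `k ≥ 4`. -/
theorem three (r : ℕ) : Nonneg (G (2 + 2 + r) (2 + 1) - G (2 + 2 + r + 1) 2) := by
  have hden : den (2 + 1) = (1 - X) * (1 - X ^ 3) * (1 - X ^ 5) * (1 - X ^ 7) := den_three
  obtain ⟨s, ρ, hρ, rfl⟩ : ∃ s ρ, ρ < 15 ∧ r = 15 * s + ρ := ⟨r / 15, r % 15, by omega, by omega⟩
  obtain ⟨Q01, n01, e01⟩ := chk_spec _ _ _ _ _ _ (by norm_num) (chk01 ρ (List.mem_range.mpr hρ))
  obtain ⟨Q02, n02, e02⟩ := chk_spec _ _ _ _ _ _ (by norm_num) (chk02 ρ (List.mem_range.mpr hρ))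
  obtain ⟨Q12, n12, e12⟩ := chk_spec _ _ _ _ _ _ (by norm_num) (chk12 ρ (List.mem_range.mpr hρ))
  obtain ⟨R, nR, eR⟩ := chk_spec _ _ _ _ _ _ (by norm_num) (chk3 ρ (List.mem_range.mpr hρ))
  simp only [List.map_cons, List.map_nil, List.prod_cons, List.prod_nil, mul_one, pow_one]
    at e01 e02 e12 eR
  have g1 := geo_mul 1 (30 * s)
  have g3 := geo_mul 3 (10 * s)
  have g5 := geo_mul 5 (6 * s)
  have b0 := geo_mul 1 (2 * ρ)
  have b1 := geo_mul 1 (2 * ρ + 9)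
  have b2 := geo_mul 1 (2 * ρ + 11)
  have hI := I_mul 7 (by norm_num)
  rw [pow_one, one_mul] at g1 b0 b1 b2
  rw [show 3 * (10 * s) = 30 * s by ring] at g3
  rw [show 5 * (6 * s) = 30 * s by ring] at g5
  apply key 2 (15 * s + ρ) (geo 1 (30 * s) * geo 3 (10 * s) * geo 5 (6 * s) * I 7 +
    (X ^ (30 * s) * (geo 3 (10 * s) * geo 5 (6 * s) *
      (geo 1 (2 * ρ) + geo 1 (2 * ρ + 9) + geo 1 (2 * ρ + 11)) * I 7) +
    (X ^ (30 * s) * (X ^ (30 * s) * (geo 3 (10 * s) * (Q01 + Q02 + Q12))) +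
    X ^ (30 * s) * (X ^ (30 * s) * (X ^ (30 * s) * R)))))
    (((((Nonneg.geo _ _).mul (Nonneg.geo _ _)).mul (Nonneg.geo _ _)).mul (Nonneg.I _)).add
      (((Nonneg.X_pow _).mul ((((Nonneg.geo _ _).mul (Nonneg.geo _ _)).mul
        (((Nonneg.geo _ _).add (Nonneg.geo _ _)).add (Nonneg.geo _ _))).mul (Nonneg.I _))).add
      (((Nonneg.X_pow _).mul ((Nonneg.X_pow _).mul ((Nonneg.geo _ _).mul
        ((n01.add n02).add n12)))).add
      ((Nonneg.X_pow _).mul ((Nonneg.X_pow _).mul ((Nonneg.X_pow _).mul nR))))))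
  have x0 : (X : ℤ⟦X⟧) ^ (2 * (15 * s + ρ)) = X ^ (30 * s) * X ^ (2 * ρ) := by
    rw [← pow_add]; congr 1; ring
  have x1 : (X : ℤ⟦X⟧) ^ (2 * (2 + 3 + (15 * s + ρ)) - 1) = X ^ (30 * s) * X ^ (2 * ρ + 9) := by
    rw [← pow_add]; congr 1; omega
  have x2 : (X : ℤ⟦X⟧) ^ (2 * (2 + 3 + (15 * s + ρ)) - 1 + 2) =
      X ^ (30 * s) * X ^ (2 * ρ + 11) := by
    rw [← pow_add]; congr 1; omega
  rw [hden, num_two, x0, x1, x2]
  generalize (X : ℤ⟦X⟧) ^ (30 * s) = y at *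
  generalize (X : ℤ⟦X⟧) ^ (2 * ρ) = a0 at *
  generalize (X : ℤ⟦X⟧) ^ (2 * ρ + 9) = a1 at *
  generalize (X : ℤ⟦X⟧) ^ (2 * ρ + 11) = a2 at *
  generalize geo 1 (30 * s) = A1 at *
  generalize geo 3 (10 * s) = A3 at *
  generalize geo 5 (6 * s) = A5 at *
  generalize geo 1 (2 * ρ) = B0 at *
  generalize geo 1 (2 * ρ + 9) = B1 at *
  generalize geo 1 (2 * ρ + 11) = B2 at *
  generalize I 7 = I7 at *
  generalize (1 : ℤ⟦X⟧) - X = d1 at *
  generalize (1 : ℤ⟦X⟧) - X ^ 3 = d3 at *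
  generalize (1 : ℤ⟦X⟧) - X ^ 5 = d5 at *
  generalize (1 : ℤ⟦X⟧) - X ^ 7 = d7 at *
  have t0 : A1 * A3 * A5 * I7 * (d1 * d3 * d5 * d7) = (1 - y) * (1 - y) * (1 - y) := by
    have : A1 * A3 * A5 * I7 * (d1 * d3 * d5 * d7) =
      (A1 * d1) * (A3 * d3) * (A5 * d5) * (I7 * d7) := by ring
    rw [this, g1, g3, g5, hI, mul_one]
  have t1 : A3 * A5 * (B0 + B1 + B2) * I7 * (d1 * d3 * d5 * d7) =
      (1 - y) * (1 - y) * ((1 - a0) + (1 - a1) + (1 - a2)) := by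
    have : A3 * A5 * (B0 + B1 + B2) * I7 * (d1 * d3 * d5 * d7) =
      (A3 * d3) * (A5 * d5) * (B0 * d1 + B1 * d1 + B2 * d1) * (I7 * d7) := by ring
    rw [this, g3, g5, hI, b0, b1, b2, mul_one]
  have t2 : A3 * (Q01 + Q02 + Q12) * (d1 * d3 * d5 * d7) =
      (1 - y) * ((1 - a0) * (1 - a1) + (1 - a0) * (1 - a2) + (1 - a1) * (1 - a2)) := by
    have : A3 * (Q01 + Q02 + Q12) * (d1 * d3 * d5 * d7) =
      (A3 * d3) * (Q01 * (d1 * (d5 * d7)) + Q02 * (d1 * (d5 * d7)) + Q12 * (d1 * (d5 * d7))) := by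
      ring
    rw [this, g3, e01, e02, e12]
  have t3 : R * (d1 * d3 * d5 * d7) = (1 - a0) * (1 - a1) * (1 - a2) := by
    have : R * (d1 * d3 * d5 * d7) = R * (d1 * (d3 * (d5 * d7))) := by ring
    rw [this, eR]
    ring
  linear_combination t0 + y * t1 + y * y * t2 + y * y * y * t3

end Pool.Agent.Helper716_Gkn
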