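import Pool.Agent.Helper716_Gkn.Basic

set_option autoImplicit false

open PowerSeries Finset

namespace Pool.Agent.Helper716_Gkn

/-- A polynomial with nonnegative coefficients, used below. -/
noncomputable def P2 : ℤ⟦X⟧ :=
  1 + X + X ^ 2 + 2 * X ^ 3 + X ^ 4 + 2 * X ^ 5 + 3 * X ^ 6 + 2 * X ^ 7 + 3 * X ^ 8 + 3 * X ^ 9 +
    3 * X ^ 10 + 3 * X ^ 11 + 3 * X ^ 12 + 3 * X ^ 13 + 2 * X ^ 14 + 3 * X ^ 15 + 2 * X ^ 16 +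
    X ^ 17 + 2 * X ^ 18 + X ^ 19 + X ^ 20 + X ^ 21

theorem Nonneg.ofNat_mul (c : ℕ) (a : ℕ) : Nonneg ((c : ℤ⟦X⟧) * X ^ a) := by
  have h : (c : ℤ⟦X⟧) * X ^ a = ∑ _i ∈ range c, X ^ a := by simp
  rw [h]
  exact Nonneg.sum _ _ fun i _ => Nonneg.X_pow a

theorem P2_nonneg : Nonneg P2 := by
  have h : P2 = ((1 : ℕ) : ℤ⟦X⟧) * X ^ 0 + ((1 : ℕ) : ℤ⟦X⟧) * X ^ 1 + ((1 : ℕ) : ℤ⟦X⟧) * X ^ 2 +
      ((2 : ℕ) : ℤ⟦X⟧) * X ^ 3 + ((1 : ℕ) : ℤ⟦X⟧) * X ^ 4 + ((2 : ℕ) : ℤ⟦X⟧) * X ^ 5 +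
      ((3 : ℕ) : ℤ⟦X⟧) * X ^ 6 + ((2 : ℕ) : ℤ⟦X⟧) * X ^ 7 + ((3 : ℕ) : ℤ⟦X⟧) * X ^ 8 +
      ((3 : ℕ) : ℤ⟦X⟧) * X ^ 9 + ((3 : ℕ) : ℤ⟦X⟧) * X ^ 10 + ((3 : ℕ) : ℤ⟦X⟧) * X ^ 11 +
      ((3 : ℕ) : ℤ⟦X⟧) * X ^ 12 + ((3 : ℕ) : ℤ⟦X⟧) * X ^ 13 + ((2 : ℕ) : ℤ⟦X⟧) * X ^ 14 +
      ((3 : ℕ) : ℤ⟦X⟧) * X ^ 15 + ((2 : ℕ) : ℤ⟦X⟧) * X ^ 16 + ((1 : ℕ) : ℤ⟦X⟧) * X ^ 17 +
      ((2 : ℕ) : ℤ⟦X⟧) * X ^ 18 + ((1 : ℕ) : ℤ⟦X⟧) * X ^ 19 + ((1 : ℕ) : ℤ⟦X⟧) * X ^ 20 +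
      ((1 : ℕ) : ℤ⟦X⟧) * X ^ 21 := by
    unfold P2
    push_cast
    ring
  rw [h]
  repeat' first | apply Nonneg.ofNat_mul | apply Nonneg.add

theorem den_two : den 2 = (1 - X) * (1 - X ^ 3) * (1 - X ^ 5) := by
  unfold den
  simp [Finset.prod_range_succ]

theorem num_one (k : ℕ) : num k 1 = 1 - X ^ (2 * k - 1) := by
  unfold num
  simp

/-- Q1 for `n = 2` and every `k ≥ 3`. -/
theorem two (r : ℕ) : Nonneg (G (1 + 2 + r) (1 + 1) - G (1 + 2 + r + 1) 1) := by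
  have hden : den (1 + 1) = (1 - X) * (1 - X ^ 3) * (1 - X ^ 5) := den_two
  have hI5 := I_mul 5 (by norm_num)
  obtain ⟨s, hs⟩ : ∃ s, r = 3 * s ∨ r = 3 * s + 1 ∨ r = 3 * s + 2 := ⟨r / 3, by omega⟩
  rcases hs with rfl | rfl | rfl
  · apply key 1 (3 * s) (geo 3 (2 * s) * geo 1 (6 * s + 7) * I 5)
      (((Nonneg.geo _ _).mul (Nonneg.geo _ _)).mul (Nonneg.I _))
    have h1 := geo_mul 3 (2 * s)
    have h2 := geo_mul 1 (6 * s + 7)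
    rw [pow_one] at h2
    rw [hden, num_one, show 2 * (3 * s) = 3 * (2 * s) by ring,
      show 2 * (1 + 3 + 3 * s) - 1 = 1 * (6 * s + 7) by omega, ← h1, ← h2]
    linear_combination (geo 3 (2 * s) * geo 1 (6 * s + 7) * (1 - X) * (1 - X ^ 3)) * hI5
  · apply key 1 (3 * s + 1) (geo 1 (6 * s + 2) * geo 3 (2 * s + 3) * I 5)
      (((Nonneg.geo _ _).mul (Nonneg.geo _ _)).mul (Nonneg.I _))
    have h1 := geo_mul 1 (6 * s + 2)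
    have h2 := geo_mul 3 (2 * s + 3)
    rw [pow_one] at h1
    rw [hden, num_one, show 2 * (3 * s + 1) = 1 * (6 * s + 2) by ring,
      show 2 * (1 + 3 + (3 * s + 1)) - 1 = 3 * (2 * s + 3) by omega, ← h1, ← h2]
    linear_combination (geo 1 (6 * s + 2) * geo 3 (2 * s + 3) * (1 - X) * (1 - X ^ 3)) * hI5
  · have h1 := geo_mul 3 (2 * s)
    have h2 := geo_mul 1 (6 * s + 11)
    have h3 := I_mul 15 (by norm_num)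
    rw [pow_one] at h2
    have hy : (X : ℤ⟦X⟧) ^ (3 * (2 * s)) = X ^ (6 * s) := by ring_nf
    have hy2 : (X : ℤ⟦X⟧) ^ (1 * (6 * s + 11)) = X ^ (6 * s) * X ^ 11 := by
      rw [one_mul, pow_add]
    have hy3 : (X : ℤ⟦X⟧) ^ (2 * (3 * s + 2)) = X ^ (6 * s) * X ^ 4 := by
      rw [← pow_add]; ring_nf
    rw [hy] at h1
    rw [hy2] at h2
    apply key 1 (3 * s + 2) (geo 3 (2 * s) * geo 1 (6 * s + 11) * I 5 +
      X ^ (6 * s) * ((geo 1 4 * geo 3 (2 * s)) * I 5 + X ^ (6 * s) * (P2 * I 15)))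
      ((((Nonneg.geo _ _).mul (Nonneg.geo _ _)).mul (Nonneg.I _)).add
        ((Nonneg.X_pow _).mul ((((Nonneg.geo _ _).mul (Nonneg.geo _ _)).mul (Nonneg.I _)).add
          ((Nonneg.X_pow _).mul (P2_nonneg.mul (Nonneg.I _))))))
    have h4 := geo_mul 1 4
    rw [pow_one, one_mul] at h4
    have h5 : P2 * ((1 - X) * (1 - X ^ 3) * (1 - X ^ 5)) =
        (1 - X ^ 4) * (1 - X ^ 11) * (1 - X ^ 15) := by
      unfold P2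
      ring
    have hn : (X : ℤ⟦X⟧) ^ (2 * (1 + 3 + (3 * s + 2)) - 1) = X ^ (6 * s) * X ^ 11 := by
      rw [← pow_add]
      congr 1
      omega
    rw [hden, num_one, hy3, hn]
    generalize geo 3 (2 * s) = A at *
    generalize geo 1 (6 * s + 11) = B at *
    generalize (X : ℤ⟦X⟧) ^ (6 * s) = y at *
    generalize geo 1 4 = C4 at *
    generalize I 5 = I5 at *
    generalize I 15 = I15 at *
    have e1 : A * B * I5 * ((1 - X) * (1 - X ^ 3) * (1 - X ^ 5)) = (1 - y) * (1 - y * X ^ 11) := by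
      rw [← h1, ← h2]
      linear_combination (A * B * (1 - X) * (1 - X ^ 3)) * hI5
    have e2 : C4 * A * I5 * ((1 - X) * (1 - X ^ 3) * (1 - X ^ 5)) = (1 - X ^ 4) * (1 - y) := by
      rw [← h1, ← h4]
      linear_combination (C4 * A * (1 - X) * (1 - X ^ 3)) * hI5
    have e3 : P2 * I15 * ((1 - X) * (1 - X ^ 3) * (1 - X ^ 5)) = (1 - X ^ 4) * (1 - X ^ 11) := by
      linear_combination I15 * h5 + (1 - X ^ 4) * (1 - X ^ 11) * h3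
    linear_combination e1 + y * e2 + y * y * e3

end Pool.Agent.Helper716_Gkn
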